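import Pool.Agent.W_MP_fc1c69_an.Core

/-!
Bounded doubling index on most wavelength discs, for every circle invariant metric on the torus.
-/

namespace Pool.Agent.Results.MP_fc1c69_an.CircleInvariantTori

open FC78

/-- For every circle invariant metric on the torus, every `A, C₁` and every `ε > 0` there is a
constant `K` such that for every eigenfunction and every covering by geodesic discs of radius
`A / √λ` with overlap at most `C₁`, at most the fraction `ε` of the discs has doubling index
larger than `K`. -/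
theorem result (M : CircleTorus) (A C₁ ε : ℝ) (hA : 0 < A) (hε : 0 < ε) :
    ∃ K : ℝ, ∀ lam : ℝ, 0 < lam → ∀ φ : ℂ → ℝ, M.IsEigenfunction lam φ →
      ∀ (ι : Type) [Fintype ι] (c : ι → ℂ), M.IsCovering C₁ (A / Real.sqrt lam) c →
        (Set.ncard {i | K < M.doublingIndex φ (c i) (A / Real.sqrt lam)} : ℝ) ≤
          ε * Fintype.card ι := by
  classical
  obtain ⟨K, hK1, hK⟩ := M.core A C₁ ε hA hε
  refine ⟨Real.logb 2 K, ?_⟩
  intro lam hlam φ hφ ι _ c hcov
  refine le_trans ?_ (hK lam hlam φ hφ ι c hcov)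
  rw [Set.ncard_eq_toFinset_card']
  have hsub : {i | Real.logb 2 K < M.doublingIndex φ (c i) (A / Real.sqrt lam)}.toFinset ⊆
      Finset.univ.filter (fun i => ¬ M.Good K φ (c i) (A / Real.sqrt lam)) := by
    intro i hi
    rw [Set.mem_toFinset, Set.mem_ofPred_eq] at hi
    refine Finset.mem_filter.2 ⟨Finset.mem_univ _, ?_⟩
    rintro ⟨z', hz', hgood⟩
    apply not_le.2 hi
    set r := A / Real.sqrt lam with hr
    obtain ⟨z0, hz0⟩ := M.exists_max hφ.contDiff.continuous hφ.periodic
    have hbdd : ∀ s : Set ℂ, BddAbove (Set.range (fun z : s => |φ z|)) := by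
      intro s
      refine ⟨|φ z0|, ?_⟩
      rintro _ ⟨z, rfl⟩
      exact hz0 z
    have hKpos : 0 < K := by linarith
    have hsB : |φ z'| ≤ ⨆ z : M.disc (c i) r, |φ z| :=
      le_ciSup (hbdd _) (⟨z', hz'⟩ : M.disc (c i) r)
    have hr0 : 0 < r := by
      rw [hr]
      exact div_pos hA (Real.sqrt_pos.2 hlam)
    have hz'2 : z' ∈ M.disc (c i) (2 * r) := M.disc_mono (by linarith) hz'
    have hne : Nonempty (M.disc (c i) (2 * r)) := ⟨⟨z', hz'2⟩⟩
    have hs2B : (⨆ z : M.disc (c i) (2 * r), |φ z|) ≤ K * ⨆ z : M.disc (c i) r, |φ z| := by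
      apply ciSup_le
      rintro ⟨z, hz⟩
      exact (hgood z hz).trans (mul_le_mul_of_nonneg_left hsB hKpos.le)
    have hnn : 0 ≤ ⨆ z : M.disc (c i) r, |φ z| := (abs_nonneg _).trans hsB
    have hnn2 : 0 ≤ ⨆ z : M.disc (c i) (2 * r), |φ z| :=
      (abs_nonneg _).trans (le_ciSup (hbdd _) (⟨z', hz'2⟩ : M.disc (c i) (2 * r)))
    unfold CircleTorus.doublingIndex
    rcases hnn.eq_or_lt with h0 | h0
    · rw [← h0, div_zero, Real.logb_zero]
      exact Real.logb_nonneg (by norm_num) hK1
    · rcases hnn2.eq_or_lt with h1 | h1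
      · rw [← h1, zero_div, Real.logb_zero]
        exact Real.logb_nonneg (by norm_num) hK1
      · apply (Real.logb_le_logb (by norm_num) (by positivity) hKpos).2
        rw [div_le_iff₀ h0]
        exact hs2B
  exact_mod_cast Finset.card_le_card hsub

end Pool.Agent.Results.MP_fc1c69_an.CircleInvariantTori
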