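import Pool.Agent.W_92892g.Main

/-!
The Birch and Swinnerton-Dyer leading-term formula as a limit of sums over point counts.

`W` is an integral Weierstrass equation of an elliptic curve over `ℚ`, `L` the entire function
whose values for `Re s > 3/2` are given by the Euler product (so `L = L(E,s)` when `W` is
minimal).  For `|θ| < π/2` and `X > 0` let

`mlSum W r θ X = Σ_{p, m ≥ 1} (α_p^m + β_p^m + r) / (m p^m) / Γ(2 + e^{iθ} m (log p) / X)`.

* For every `θ` the sums satisfy `exp (mlSum W r θ X) → lam` as `X → ∞` if and only if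
  `L(s)/(s-1)^r → lam` as `s → 1` and `L` has no zero on the open ray `1 + e^{iθ} (0, ∞)`.
* There is a countable set `Z` such that for all `θ ∉ Z` and all `W`, `L`, `r`, `lam`:
  `exp (mlSum W r θ X) → lam` if and only if `L(s)/(s-1)^r → lam`.
-/

namespace Pool.Agent.Results.MP_92892c_nt.MittagLefflerSum

open Filter Topology BSDS BSDG

theorem result :
    (∀ W : WeierstrassCurve ℤ, W.Δ ≠ 0 → ∀ L : ℂ → ℂ, Differentiable ℂ L →
      (∀ s : ℂ, 3 / 2 < s.re → Tendsto (fun N : ℕ =>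
        ∏ p ∈ (Finset.range N).filter Nat.Prime, (locFactor W p s)⁻¹) atTop (𝓝 (L s))) →
      ∀ (r : ℕ) (lam : ℂ), lam ≠ 0 → ∀ θ : ℝ, |θ| < Real.pi / 2 →
        (Tendsto (fun X : ℝ => Complex.exp (mlSum W r θ X)) atTop (𝓝 lam) ↔
          Tendsto (fun s : ℂ => L s / (s - 1) ^ r) (𝓝[≠] 1) (𝓝 lam) ∧
            ∀ x : ℝ, 0 < x → L (1 + x * Complex.exp (θ * Complex.I)) ≠ 0)) ∧
    (∃ Z : Set ℝ, Z.Countable ∧ ∀ θ : ℝ, θ ∉ Z → |θ| < Real.pi / 2 →
      ∀ W : WeierstrassCurve ℤ, W.Δ ≠ 0 → ∀ L : ℂ → ℂ, Differentiable ℂ L →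
      (∀ s : ℂ, 3 / 2 < s.re → Tendsto (fun N : ℕ =>
        ∏ p ∈ (Finset.range N).filter Nat.Prime, (locFactor W p s)⁻¹) atTop (𝓝 (L s))) →
      ∀ (r : ℕ) (lam : ℂ), lam ≠ 0 →
        (Tendsto (fun X : ℝ => Complex.exp (mlSum W r θ X)) atTop (𝓝 lam) ↔
          Tendsto (fun s : ℂ => L s / (s - 1) ^ r) (𝓝[≠] 1) (𝓝 lam))) := by
  refine ⟨fun W _ L hL hprod r lam hlam θ hθ => main_iff W L hL hprod r lam hlam θ hθ, ?_⟩
  obtain ⟨Z, hZ, h⟩ := exists_Z
  refine ⟨Z, hZ, fun θ hθZ hθ W _ L hL hprod r lam hlam => ?_⟩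
  rw [main_iff W L hL hprod r lam hlam θ hθ]
  exact and_iff_left (h θ hθZ hθ W L hL hprod)

end Pool.Agent.Results.MP_92892c_nt.MittagLefflerSum
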